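import Pool.Agent.H85.OT.ZDef

/-!
# The abstract Shidlovsky lemma

A linear form `R = ∑ ev (p i) * y i` with polynomial coefficients of degree `≤ n` in `r` power
series that satisfy a system of linear differential equations (with a regular singularity at `0`)
has a nonzero coefficient of index `≤ r * n + C0`, as soon as `R ≠ 0`.
-/

open PowerSeries

namespace Pool.Agent.H49.OP

open Pool.Agent.H85.OT (Dv)

section Minor

variable {A : Type*} [CommRing A]

/-- Cramer's rule -/
theorem cramer_aux [IsDomain A] {k r : ℕ} (v : ℕ → Fin r → A) (J : Fin k → Fin r) (w : Fin r → A)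
    (a : A) (ha : a ≠ 0) (c : Fin k → A) (h : ∀ j, a * w j = ∑ i : Fin k, c i * v i j) :
    ∃ g : Fin k → A, ∀ j,
      (Matrix.of fun i j : Fin k => v i (J j)).det * w j = ∑ i : Fin k, g i * v i j := by
  set M : Matrix (Fin k) (Fin k) A := Matrix.of fun i j : Fin k => v i (J j) with hM
  let g : Fin k → A := Matrix.vecMul (fun l => w (J l)) M.adjugate
  have h1 : (a • fun l => w (J l)) = Matrix.vecMul c M := by
    funext l
    simp only [Pi.smul_apply, smul_eq_mul, Matrix.vecMul, dotProduct, h, hM, Matrix.of_apply]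
  have h2 : a • g = M.det • c := by
    have : a • g = Matrix.vecMul (a • fun l => w (J l)) M.adjugate := by
      rw [Matrix.smul_vecMul]
    rw [this, h1, Matrix.vecMul_vecMul, Matrix.mul_adjugate, Matrix.vecMul_smul, Matrix.vecMul_one]
  have h3 : ∀ i, a * g i = M.det * c i := fun i => congrFun h2 i
  refine ⟨g, fun j => mul_left_cancel₀ ha ?_⟩
  calc a * (M.det * w j) = M.det * (a * w j) := by ring
    _ = M.det * ∑ i : Fin k, c i * v i j := by rw [h]
    _ = ∑ i : Fin k, (M.det * c i) * v i j := by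
        rw [Finset.mul_sum]; exact Finset.sum_congr rfl fun i _ => by ring
    _ = ∑ i : Fin k, (a * g i) * v i j := by simp only [h3]
    _ = a * ∑ i : Fin k, g i * v i j := by
        rw [Finset.mul_sum]; exact Finset.sum_congr rfl fun i _ => by ring

/-- a maximal nonzero minor gives a relation -/
theorem exists_rel [Nontrivial A] {r : ℕ} (v : ℕ → Fin r → A) :
    ∃ k : ℕ, k ≤ r ∧ ∃ J : Fin k → Fin r, (Matrix.of fun i j : Fin k => v i (J j)).det ≠ 0 ∧
      ∃ m : Fin k → A, ∀ j,
        (Matrix.of fun i j : Fin k => v i (J j)).det * v k j = ∑ i : Fin k, m i * v i j := by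
  classical
  let Q : ℕ → Prop := fun k => ∃ J : Fin k → Fin r,
    (Matrix.of fun i j : Fin k => v i (J j)).det ≠ 0
  have hQ0 : Q 0 := ⟨fun i => i.elim0, by simp⟩
  have hQr : ¬ Q (r + 1) := by
    rintro ⟨J, hJ⟩
    have : ¬ Function.Injective J := fun hi => by
      have := Fintype.card_le_of_injective J hi
      simp at this
    rw [Function.not_injective_iff] at this
    obtain ⟨a, b, hab, hne⟩ := this
    exact hJ (Matrix.det_zero_of_column_eq hne fun i => by simp [hab])
  have hex : ∃ k, ¬ Q (k + 1) := ⟨r, hQr⟩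
  let k := Nat.find hex
  have hk1 : ¬ Q (k + 1) := Nat.find_spec hex
  have hkr : k ≤ r := Nat.find_min' hex hQr
  have hk0 : Q k := by
    rcases Nat.eq_zero_or_pos k with h | h
    · rw [h]; exact hQ0
    · have := Nat.find_min hex (m := k - 1) (Nat.sub_lt h Nat.one_pos)
      rw [not_not, Nat.sub_add_cancel h] at this
      exact this
  obtain ⟨J, hJ⟩ := hk0
  refine ⟨k, hkr, J, hJ, fun i => -((-1) ^ ((i : ℕ) + k) *
    (Matrix.of fun a b : Fin k => v ((Fin.castSucc i).succAbove a) (J b)).det), fun j => ?_⟩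
  have h0 : (Matrix.of fun a b : Fin (k + 1) => v a ((Fin.snoc J j : Fin (k + 1) → Fin r) b)).det
      = 0 := by
    by_contra hne
    exact hk1 ⟨_, hne⟩
  rw [Matrix.det_succ_column _ (Fin.last k), Fin.sum_univ_castSucc] at h0
  have e1 : ∀ i : Fin (k + 1), ((Matrix.of fun a b : Fin (k + 1) =>
      v a ((Fin.snoc J j : Fin (k + 1) → Fin r) b)).submatrix i.succAbove
        (Fin.last k).succAbove) = Matrix.of fun a b : Fin k => v (i.succAbove a) (J b) := by
    intro i
    ext a b
    simp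
  simp only [e1] at h0
  simp only [Matrix.of_apply, Fin.snoc_last, Fin.val_last, Fin.val_castSucc,
    Fin.succAbove_last] at h0
  have e2 : ((-1 : A)) ^ (k + k) = 1 := Even.neg_one_pow ⟨k, rfl⟩
  rw [e2, one_mul] at h0
  rw [mul_comm, ← sub_eq_zero, ← h0]
  rw [sub_eq_add_neg, add_comm]
  congr 1
  rw [← Finset.sum_neg_distrib]
  exact Finset.sum_congr rfl fun i _ => by ring

end Minor

section Nabla

variable {A : Type*} [CommRing A] {r : ℕ}

/-- the connection on row vectors -/
def nab (d : Dv A) (B : Fin r → Fin r → A) (w : Fin r → A) : Fin r → A :=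
  fun k => d (w k) + ∑ j, w j * B j k

theorem nab_add (d : Dv A) (B : Fin r → Fin r → A) (w w' : Fin r → A) :
    nab d B (w + w') = nab d B w + nab d B w' := by
  funext k
  simp only [nab, Pi.add_apply, d.map_add, add_mul, Finset.sum_add_distrib]
  ring

theorem nab_zero (d : Dv A) (B : Fin r → Fin r → A) : nab d B 0 = 0 := by
  funext k
  simp [nab, d.map_zero]

theorem nab_smul (d : Dv A) (B : Fin r → Fin r → A) (a : A) (w : Fin r → A) :
    nab d B (a • w) = d a • w + a • nab d B w := by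
  funext k
  simp only [nab, Pi.add_apply, Pi.smul_apply, smul_eq_mul, d.map_mul, mul_add, Finset.mul_sum]
  rw [add_assoc]
  congr 2
  exact Finset.sum_congr rfl fun i _ => by ring

theorem nab_sum (d : Dv A) (B : Fin r → Fin r → A) {ι : Type*} (s : Finset ι)
    (w : ι → Fin r → A) : nab d B (∑ i ∈ s, w i) = ∑ i ∈ s, nab d B (w i) := by
  classical
  induction s using Finset.induction_on with
  | empty => simpa using nab_zero d B
  | insert a s ha ih => rw [Finset.sum_insert ha, Finset.sum_insert ha, nab_add, ih]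

theorem nab_dot (d : Dv A) (B : Fin r → Fin r → A) (y : Fin r → A)
    (hy : ∀ i, d (y i) = ∑ j, B i j * y j) (w : Fin r → A) :
    ∑ k, nab d B w k * y k = d (∑ k, w k * y k) := by
  rw [d.map_sum]
  simp only [nab, d.map_mul, hy, add_mul, Finset.sum_add_distrib, Finset.sum_mul, Finset.mul_sum]
  congr 1
  rw [Finset.sum_comm]
  exact Finset.sum_congr rfl fun i _ => Finset.sum_congr rfl fun j _ => by ring

/-- the saturation of the span of `v 0, ..., v (k-1)` -/
def satSpan [IsDomain A] (v : ℕ → Fin r → A) (k : ℕ) : Submodule A (Fin r → A) where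
  carrier := {w | ∃ a : A, a ≠ 0 ∧ a • w ∈ Submodule.span A (Set.range fun i : Fin k => v i)}
  add_mem' := by
    rintro w w' ⟨a, ha, h⟩ ⟨b, hb, h'⟩
    refine ⟨a * b, mul_ne_zero ha hb, ?_⟩
    have : (a * b) • (w + w') = b • (a • w) + a • (b • w') := by
      rw [smul_add, smul_smul, smul_smul, mul_comm b a]
    rw [this]
    exact Submodule.add_mem _ (Submodule.smul_mem _ _ h) (Submodule.smul_mem _ _ h')
  zero_mem' := ⟨1, one_ne_zero, by rw [smul_zero]; exact Submodule.zero_mem _⟩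
  smul_mem' := by
    rintro c w ⟨a, ha, h⟩
    refine ⟨a, ha, ?_⟩
    rw [smul_comm]
    exact Submodule.smul_mem _ _ h

variable [IsDomain A]

theorem mem_satSpan {v : ℕ → Fin r → A} {k : ℕ} {w : Fin r → A} :
    w ∈ satSpan v k ↔
      ∃ a : A, a ≠ 0 ∧ a • w ∈ Submodule.span A (Set.range fun i : Fin k => v i) := Iff.rfl

theorem satSpan_sat {v : ℕ → Fin r → A} {k : ℕ} {w : Fin r → A} {b : A} (hb : b ≠ 0)
    (h : b • w ∈ satSpan v k) : w ∈ satSpan v k := by
  obtain ⟨a, ha, h'⟩ := h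
  exact ⟨a * b, mul_ne_zero ha hb, by rw [mul_smul]; exact h'⟩

theorem satSpan_of_span {v : ℕ → Fin r → A} {k : ℕ} {w : Fin r → A}
    (h : w ∈ Submodule.span A (Set.range fun i : Fin k => v i)) : w ∈ satSpan v k :=
  ⟨1, one_ne_zero, by rw [one_smul]; exact h⟩

/-- stability of the saturation -/
theorem nab_mem (d : Dv A) (B : Fin r → Fin r → A) (v : ℕ → Fin r → A)
    (hv : ∀ i, v (i + 1) = nab d B (v i)) (k : ℕ) (hk : v k ∈ satSpan v k) {w : Fin r → A}
    (hw : w ∈ satSpan v k) : nab d B w ∈ satSpan v k := by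
  have hvi : ∀ i : Fin k, v (i + 1) ∈ satSpan v k := by
    intro i
    rcases Nat.lt_or_ge ((i : ℕ) + 1) k with h | h
    · exact satSpan_of_span (Submodule.subset_span ⟨⟨(i : ℕ) + 1, h⟩, rfl⟩)
    · have : (i : ℕ) + 1 = k := le_antisymm i.2 h
      rw [this]
      exact hk
  obtain ⟨a, ha, h⟩ := hw
  obtain ⟨c, hc⟩ := (Submodule.mem_span_range_iff_exists_fun A).1 h
  have h1 : nab d B (a • w) ∈ satSpan v k := by
    rw [← hc, nab_sum]
    refine Submodule.sum_mem _ fun i _ => ?_
    rw [nab_smul, ← hv]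
    refine Submodule.add_mem _ (Submodule.smul_mem _ _ ?_) (Submodule.smul_mem _ _ (hvi i))
    exact satSpan_of_span (Submodule.subset_span ⟨i, rfl⟩)
  rw [nab_smul] at h1
  have h2 : a • nab d B w ∈ satSpan v k := by
    have h3 : d a • w ∈ satSpan v k := Submodule.smul_mem _ _ ⟨a, ha, h⟩
    have := Submodule.sub_mem _ h1 h3
    rwa [add_sub_cancel_left] at this
  exact satSpan_sat ha h2

end Nabla

section Eigen

variable {K : Type*} [Field K]

/-- an eigenfunctional on a stable subspace gives an eigenvalue of the whole map -/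
theorem eigen_of_functional {V : Type*} [AddCommGroup V] [Module K V] [FiniteDimensional K V]
    (M : V →ₗ[K] V) (T : Submodule K V) (hT : ∀ t ∈ T, M t ∈ T) (φ : V →ₗ[K] K) (e : K)
    (hφ : ∀ t ∈ T, φ (M t) = e * φ t) (hne : ∃ t ∈ T, φ t ≠ 0) :
    Module.End.HasEigenvalue M e := by
  let N : T →ₗ[K] T := M.restrict hT - e • LinearMap.id
  have hns : ¬ Function.Surjective N := by
    intro hs
    obtain ⟨t, ht, hne⟩ := hne
    obtain ⟨u, hu⟩ := hs ⟨t, ht⟩
    apply hne
    have h1 : (N u : V) = t := by rw [hu]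
    have h2 : (N u : V) = M u - e • (u : V) := by
      simp [N]
    rw [← h1, h2, map_sub, map_smul, hφ u u.2, smul_eq_mul, sub_self]
  have hni : ¬ Function.Injective N := fun hi => hns (LinearMap.injective_iff_surjective.1 hi)
  rw [← LinearMap.ker_eq_bot, Submodule.eq_bot_iff] at hni
  push Not at hni
  obtain ⟨u, hu, hu0⟩ := hni
  rw [LinearMap.mem_ker] at hu
  have h2 : (N u : V) = M u - e • (u : V) := by
    simp [N]
  rw [hu] at h2
  refine Module.End.hasEigenvalue_of_hasEigenvector (x := (u : V)) ?_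
  rw [Module.End.hasEigenvector_iff]
  refine ⟨Module.End.mem_eigenspace_iff.2 ?_, fun h => hu0 (Subtype.ext h)⟩
  rw [eq_comm, ← sub_eq_zero, ← neg_sub, ← h2]
  simp

theorem eigen_bdd [CharZero K] {V : Type*} [AddCommGroup V] [Module K V] [FiniteDimensional K V]
    (M : V →ₗ[K] V) : ∃ s : ℕ, ∀ e : ℕ, Module.End.HasEigenvalue M (e : K) → e ≤ s := by
  have h : Set.Finite {e : ℕ | Module.End.HasEigenvalue M (e : K)} := by
    have h1 : Set.Finite {μ : K | Module.End.HasEigenvalue M μ} :=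
      Module.End.finite_hasEigenvalue M
    exact h1.preimage (Nat.cast_injective.injOn)
  obtain ⟨s, hs⟩ := h.bddAbove
  exact ⟨s, fun e he => hs he⟩

end Eigen

section Main

variable {K : Type*} [Field K] {r : ℕ}

/-- evaluation at `0` -/
noncomputable def ev0 (K : Type*) [Field K] (r : ℕ) : (Fin r → K⟦X⟧) →ₗ[K] (Fin r → K) where
  toFun w := fun j => coeff 0 (w j)
  map_add' w w' := by funext j; simp
  map_smul' a w := by funext j; simp

/-- the coefficient of index `e` of `w . y` -/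
noncomputable def psi (y : Fin r → K⟦X⟧) (e : ℕ) : (Fin r → K⟦X⟧) →ₗ[K] K where
  toFun w := coeff e (∑ j, w j * y j)
  map_add' w w' := by
    simp only [Pi.add_apply, add_mul, Finset.sum_add_distrib, map_add]
  map_smul' a w := by
    simp only [Pi.smul_apply, smul_mul_assoc, ← Finset.smul_sum, RingHom.id_apply]
    rw [map_smul]

theorem exists_phi (y : Fin r → K⟦X⟧) (e : ℕ) (L : Submodule K⟦X⟧ (Fin r → K⟦X⟧))
    (hsat : ∀ u : Fin r → K⟦X⟧, (X : K⟦X⟧) • u ∈ L → u ∈ L)
    (hmin : ∀ w ∈ L, ∀ l < e, coeff l (∑ j, w j * y j) = 0) :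
    ∃ φ : (Fin r → K) →ₗ[K] K, ∀ w ∈ L, φ (ev0 K r w) = psi y e w := by
  let LK : Submodule K (Fin r → K⟦X⟧) := L.restrictScalars K
  let f : LK →ₗ[K] (Fin r → K) := (ev0 K r).comp LK.subtype
  let g : Module.Dual K LK := (psi y e).comp LK.subtype
  have hg : g ∈ (LinearMap.ker f).dualAnnihilator := by
    rw [Submodule.mem_dualAnnihilator]
    rintro ⟨w, hw⟩ hfw
    rw [LinearMap.mem_ker] at hfw
    change coeff e (∑ j, w j * y j) = 0
    have h0 : ∀ j, ∃ u, w j = X * u := by
      intro j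
      have : coeff 0 (w j) = 0 := congrFun hfw j
      rw [coeff_zero_eq_constantCoeff_apply] at this
      exact X_dvd_iff.2 this
    choose u hu using h0
    have hwu : w = (X : K⟦X⟧) • u := by
      funext j
      rw [hu]
      rfl
    have huL : u ∈ L := hsat u (by rw [← hwu]; exact hw)
    have hs : ∑ j, w j * y j = X * ∑ j, u j * y j := by
      rw [Finset.mul_sum]
      exact Finset.sum_congr rfl fun j _ => by rw [hu, mul_assoc]
    rw [hs]
    rcases Nat.eq_zero_or_pos e with he | he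
    · rw [he]; simp
    · obtain ⟨e', rfl⟩ : ∃ e', e = e' + 1 := ⟨e - 1, by omega⟩
      rw [mul_comm, coeff_succ_mul_X]
      exact hmin u huL e' (Nat.lt_succ_self _)
  rw [← LinearMap.range_dualMap_eq_dualAnnihilator_ker] at hg
  obtain ⟨φ, hφ⟩ := hg
  refine ⟨φ, fun w hw => ?_⟩
  have := LinearMap.congr_fun hφ ⟨w, hw⟩
  exact this

/-- the local exponent bound -/
theorem order_bound [CharZero K] (d : Dv K⟦X⟧)
    (hd : ∀ (s : ℕ) (f : K⟦X⟧), (∀ l < s, coeff l f = 0) →
      (∀ l < s, coeff l (d f) = 0) ∧ coeff s (d f) = s * coeff s f)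
    (y : Fin r → K⟦X⟧) (B : Fin r → Fin r → K⟦X⟧) (hy : ∀ i, d (y i) = ∑ j, B i j * y j) :
    ∃ s0 : ℕ, ∀ L : Submodule K⟦X⟧ (Fin r → K⟦X⟧),
      (∀ u : Fin r → K⟦X⟧, (X : K⟦X⟧) • u ∈ L → u ∈ L) → (∀ w ∈ L, nab d B w ∈ L) →
      (∃ w ∈ L, ∑ j, w j * y j ≠ 0) →
      ∃ e ≤ s0, ∃ w ∈ L, coeff e (∑ j, w j * y j) ≠ 0 := by
  classical
  let M : (Fin r → K) →ₗ[K] (Fin r → K) :=
    Matrix.vecMulLinear (Matrix.of fun j k => coeff 0 (B j k))
  obtain ⟨s0, hs0⟩ := eigen_bdd M
  refine ⟨s0, fun L hsat hst hne => ?_⟩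
  have hex : ∃ e, ∃ w ∈ L, coeff e (∑ j, w j * y j) ≠ 0 := by
    obtain ⟨w, hw, h⟩ := hne
    by_contra hcon
    push Not at hcon
    exact h (PowerSeries.ext fun e => by rw [hcon e w hw, map_zero])
  let e := Nat.find hex
  obtain ⟨w0, hw0, hw0e⟩ := Nat.find_spec hex
  have hmin : ∀ w ∈ L, ∀ l < e, coeff l (∑ j, w j * y j) = 0 := by
    intro w hw l hl
    by_contra h
    exact Nat.find_min hex hl ⟨w, hw, h⟩
  refine ⟨e, ?_, w0, hw0, hw0e⟩
  apply hs0
  obtain ⟨φ, hφ⟩ := exists_phi y e L hsat hmin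
  have hM : ∀ w, M (ev0 K r w) = ev0 K r (nab d B w) := by
    intro w
    funext k
    have h0 : coeff 0 (d (w k)) = 0 := by
      rw [(hd 0 (w k) (fun l hl => absurd hl (Nat.not_lt_zero _))).2]
      simp
    change (Matrix.vecMul (ev0 K r w) (Matrix.of fun j k => coeff 0 (B j k))) k
      = coeff 0 (d (w k) + ∑ j, w j * B j k)
    rw [map_add, h0, zero_add, map_sum]
    simp only [Matrix.vecMul, dotProduct, Matrix.of_apply]
    refine Finset.sum_congr rfl fun j _ => ?_
    have e3 : coeff 0 (w j * B j k) = coeff 0 (w j) * coeff 0 (B j k) := by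
      simp only [coeff_zero_eq_constantCoeff_apply, map_mul]
    rw [e3]
    rfl
  refine eigen_of_functional M ((L.restrictScalars K).map (ev0 K r)) ?_ φ e ?_ ?_
  · rintro _ ⟨w, hw, rfl⟩
    rw [hM]
    exact ⟨_, hst w hw, rfl⟩
  · rintro _ ⟨w, hw, rfl⟩
    rw [hM, hφ _ (hst w hw), hφ _ hw]
    change coeff e (∑ j, nab d B w j * y j) = e * coeff e (∑ j, w j * y j)
    rw [nab_dot d B y hy]
    exact (hd e _ (hmin w hw)).2
  · refine ⟨ev0 K r w0, ⟨w0, hw0, rfl⟩, ?_⟩
    rw [hφ _ hw0]
    exact hw0e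

end Main

section Final

variable {K : Type*} [Field K]

theorem low_d (d : Dv K⟦X⟧)
    (hd : ∀ (s : ℕ) (f : K⟦X⟧), (∀ l < s, coeff l f = 0) →
      (∀ l < s, coeff l (d f) = 0) ∧ coeff s (d f) = s * coeff s f)
    (s : ℕ) (f : K⟦X⟧) (hf : X ^ s ∣ f) : X ^ s ∣ d f := by
  rw [X_pow_dvd_iff] at hf ⊢
  exact (hd s f hf).1

/-- **Shidlovsky's lemma**, abstract form. -/
theorem shidlovsky [CharZero K] {r : ℕ} (d : Dv K⟦X⟧)
    (hd : ∀ (s : ℕ) (f : K⟦X⟧), (∀ l < s, coeff l f = 0) →
      (∀ l < s, coeff l (d f) = 0) ∧ coeff s (d f) = s * coeff s f)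
    (ev : Polynomial K →+* K⟦X⟧) (c0 : ℕ)
    (hev : ∀ P : Polynomial K, ∃ Q : Polynomial K,
      Q.natDegree ≤ P.natDegree + c0 ∧ ev Q = d (ev P))
    (hord : ∀ P : Polynomial K, P ≠ 0 → ∃ l ≤ P.natDegree, coeff l (ev P) ≠ 0)
    (y : Fin r → K⟦X⟧) (B : Fin r → Fin r → Polynomial K)
    (hy : ∀ i, d (y i) = ∑ j, ev (B i j) * y j) :
    ∃ C0 : ℕ, ∀ (n : ℕ) (p : Fin r → Polynomial K), (∀ i, (p i).natDegree ≤ n) →
      ∑ i, ev (p i) * y i ≠ 0 → ∃ l ≤ r * n + C0, coeff l (∑ i, ev (p i) * y i) ≠ 0 := by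
  classical
  obtain ⟨s0, hs0⟩ := order_bound d hd y (fun i j => ev (B i j)) hy
  obtain ⟨c, hc0, hcB⟩ : ∃ c, c0 ≤ c ∧ ∀ i j, (B i j).natDegree ≤ c := by
    refine ⟨c0 + ∑ i, ∑ j, (B i j).natDegree, Nat.le_add_right _ _, fun i j => ?_⟩
    calc (B i j).natDegree ≤ ∑ j, (B i j).natDegree :=
          Finset.single_le_sum (f := fun j => (B i j).natDegree) (fun _ _ => Nat.zero_le _)
            (Finset.mem_univ j)
      _ ≤ ∑ i, ∑ j, (B i j).natDegree :=
          Finset.single_le_sum (f := fun i => ∑ j, (B i j).natDegree) (fun _ _ => Nat.zero_le _)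
            (Finset.mem_univ i)
      _ ≤ _ := Nat.le_add_left _ _
  refine ⟨c * (r * r) + s0, fun n p hp hR => ?_⟩
  set R : K⟦X⟧ := ∑ i, ev (p i) * y i with hRdef
  -- the iterates
  let v : ℕ → Fin r → K⟦X⟧ := fun i =>
    (nab d (fun i j => ev (B i j)))^[i] (fun j => ev (p j))
  have hv : ∀ i, v (i + 1) = nab d (fun i j => ev (B i j)) (v i) := fun i =>
    Function.iterate_succ_apply' _ _ _
  have hvR : ∀ i s, X ^ s ∣ R → X ^ s ∣ ∑ j, v i j * y j := by
    intro i s hs
    induction i with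
    | zero => exact hs
    | succ i ih =>
      rw [hv, nab_dot d _ y hy]
      exact low_d d hd _ _ ih
  have hvp : ∀ i, ∃ q : Fin r → Polynomial K, (∀ j, (q j).natDegree ≤ n + c * i) ∧
      ∀ j, v i j = ev (q j) := by
    intro i
    induction i with
    | zero => exact ⟨p, fun j => by simpa using hp j, fun j => rfl⟩
    | succ i ih =>
      obtain ⟨q, hq, hvq⟩ := ih
      have hq' : ∀ k, ∃ Q : Polynomial K, Q.natDegree ≤ n + c * (i + 1) ∧
          v (i + 1) k = ev Q := by
        intro k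
        obtain ⟨Q, hQ, hQe⟩ := hev (q k)
        refine ⟨Q + ∑ j, q j * B j k, ?_, ?_⟩
        · refine (Polynomial.natDegree_add_le _ _).trans (max_le ?_ ?_)
          · calc Q.natDegree ≤ (q k).natDegree + c0 := hQ
              _ ≤ (n + c * i) + c := Nat.add_le_add (hq k) hc0
              _ = n + c * (i + 1) := by ring
          · refine Polynomial.natDegree_sum_le_of_forall_le _ _ fun j _ => ?_
            calc (q j * B j k).natDegree ≤ (q j).natDegree + (B j k).natDegree :=
                  Polynomial.natDegree_mul_le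
              _ ≤ (n + c * i) + c := Nat.add_le_add (hq j) (hcB j k)
              _ = n + c * (i + 1) := by ring
        · rw [hv, map_add, hQe, map_sum]
          simp only [nab, map_mul, hvq]
      choose q' hq1 hq2 using hq'
      exact ⟨q', hq1, hq2⟩
  choose q hqd hqe using hvp
  obtain ⟨k, hkr, J, hD, m, hm⟩ := exists_rel v
  set D : K⟦X⟧ := (Matrix.of fun i j : Fin k => v i (J j)).det with hDdef
  -- the degree of `D`
  have hDl : ∃ l ≤ r * n + c * (r * r), coeff l D ≠ 0 := by
    let E : Polynomial K := (Matrix.of fun i j : Fin k => q i (J j)).det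
    have hE : ev E = D := by
      rw [RingHom.map_det, hDdef]
      congr 1
      ext i j
      simp [hqe]
    have hE0 : E ≠ 0 := by
      rintro h
      rw [h, map_zero] at hE
      exact hD hE.symm
    have hEd : E.natDegree ≤ k * (n + c * k) := by
      change (Matrix.det (Matrix.of fun i j : Fin k => q i (J j))).natDegree ≤ _
      rw [Matrix.det_apply]
      refine Polynomial.natDegree_sum_le_of_forall_le _ _ fun σ _ => ?_
      refine (Polynomial.natDegree_smul_le _ _).trans ?_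
      refine (Polynomial.natDegree_prod_le _ _).trans ?_
      calc ∑ i : Fin k, ((Matrix.of fun i j : Fin k => q i (J j)) (σ i) i).natDegree
          ≤ ∑ i : Fin k, (n + c * k) := by
            refine Finset.sum_le_sum fun i _ => ?_
            rw [Matrix.of_apply]
            exact (hqd _ _).trans (Nat.add_le_add_left (Nat.mul_le_mul_left _ (σ i).2.le) _)
        _ = k * (n + c * k) := by simp
    obtain ⟨l, hl, hne⟩ := hord E hE0
    refine ⟨l, ?_, by rw [← hE]; exact hne⟩
    calc l ≤ k * (n + c * k) := hl.trans hEd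
      _ ≤ r * (n + c * r) := Nat.mul_le_mul hkr (Nat.add_le_add_left (Nat.mul_le_mul_left _ hkr) _)
      _ = r * n + c * (r * r) := by ring
  -- the saturated module
  have hDv : ∀ i ≤ k, v i ∈ satSpan v k := by
    intro i hi
    rcases Nat.lt_or_eq_of_le hi with h | h
    · exact satSpan_of_span (Submodule.subset_span ⟨⟨i, h⟩, rfl⟩)
    · rw [h]
      refine ⟨D, hD, (Submodule.mem_span_range_iff_exists_fun _).2 ⟨m, ?_⟩⟩
      funext j
      rw [Finset.sum_apply]
      simp only [Pi.smul_apply, smul_eq_mul]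
      exact (hm j).symm
  obtain ⟨e, he, w, hw, hwe⟩ := hs0 (satSpan v k)
    (fun u hu => satSpan_sat X_ne_zero hu)
    (fun w hw => nab_mem d _ v hv k (hDv k le_rfl) hw)
    ⟨v 0, hDv 0 (Nat.zero_le _), hR⟩
  obtain ⟨a, ha, haw⟩ := hw
  obtain ⟨cc, hcc⟩ := (Submodule.mem_span_range_iff_exists_fun _).1 haw
  obtain ⟨g, hg⟩ := cramer_aux v J w a ha cc (fun j => by
    have := congrFun hcc j
    rw [Finset.sum_apply] at this
    simp only [Pi.smul_apply, smul_eq_mul] at this
    exact this.symm)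
  rw [← hDdef] at hg
  by_contra hcon
  push Not at hcon
  have hXR : X ^ (r * n + (c * (r * r) + s0) + 1) ∣ R := by
    rw [X_pow_dvd_iff]
    intro l hl
    exact hcon l (Nat.lt_succ_iff.1 hl)
  have hX : X ^ (r * n + (c * (r * r) + s0) + 1) ∣ D * ∑ j, w j * y j := by
    have h1 : D * ∑ j, w j * y j = ∑ i : Fin k, g i * ∑ j, v i j * y j := by
      calc D * ∑ j, w j * y j = ∑ j, (D * w j) * y j := by
            rw [Finset.mul_sum]; exact Finset.sum_congr rfl fun j _ => by ring
        _ = ∑ j, (∑ i : Fin k, g i * v i j) * y j := by simp only [hg]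
        _ = ∑ i : Fin k, g i * ∑ j, v i j * y j := by
            simp only [Finset.sum_mul, Finset.mul_sum]
            rw [Finset.sum_comm]
            exact Finset.sum_congr rfl fun i _ => Finset.sum_congr rfl fun j _ => by ring
    rw [h1]
    exact Finset.dvd_sum fun i _ => Dvd.dvd.mul_left (hvR i _ hXR) _
  obtain ⟨l, hl, hlD⟩ := hDl
  have o1 : D.order ≤ (l : ℕ∞) := order_le _ hlD
  have o2 : (∑ j, w j * y j).order ≤ (e : ℕ∞) := order_le _ hwe
  have o3 : ((r * n + (c * (r * r) + s0) + 1 : ℕ) : ℕ∞) ≤ (D * ∑ j, w j * y j).order :=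
    X_pow_dvd_iff.1 hX |> fun h => nat_le_order _ _ h
  rw [order_mul] at o3
  have o4 : ((r * n + (c * (r * r) + s0) + 1 : ℕ) : ℕ∞) ≤ ((l + e : ℕ) : ℕ∞) := by
    refine o3.trans ((add_le_add o1 o2).trans ?_)
    push_cast
    exact le_rfl
  have o5 : r * n + (c * (r * r) + s0) + 1 ≤ l + e := by exact_mod_cast o4
  omega

end Final

end Pool.Agent.H49.OP
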