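import Pool.Agent.H49.OP.Shid

/-!
# Shidlovsky's lemma for `ev = aeval x`, `x` a power series of order `1` with `d x = E0(x)`
-/

open PowerSeries

namespace Pool.Agent.H49.OP

open Pool.Agent.H85.OT (Dv Dq del U)

section Aeval

variable {K : Type*} [Field K]

theorem coeff_aeval_lt {x : K⟦X⟧} (hx0 : coeff 0 x = 0) (a l : ℕ) (hl : l < a) :
    coeff l (x ^ a) = 0 := by
  rw [coeff_zero_eq_constantCoeff_apply] at hx0
  exact X_pow_dvd_iff.1 (pow_dvd_pow_of_dvd (X_dvd_iff.2 hx0) a) l hl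

theorem coeff_aeval_self {x : K⟦X⟧} (hx0 : coeff 0 x = 0) (a : ℕ) :
    coeff a (x ^ a) = coeff 1 x ^ a := by
  rw [coeff_zero_eq_constantCoeff_apply] at hx0
  obtain ⟨u, rfl⟩ := X_dvd_iff.2 hx0
  rw [mul_pow, coeff_X_pow_mul' , if_pos le_rfl, Nat.sub_self]
  have : coeff 1 (X * u) = coeff 0 u := by
    simp
  rw [this]
  simp only [coeff_zero_eq_constantCoeff_apply, map_pow]

theorem ord_aeval {x : K⟦X⟧} (hx0 : coeff 0 x = 0) (hx1 : coeff 1 x ≠ 0) (P : Polynomial K)
    (hP : P ≠ 0) : ∃ l ≤ P.natDegree, coeff l (Polynomial.aeval x P) ≠ 0 := by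
  classical
  refine ⟨P.natTrailingDegree, Polynomial.natTrailingDegree_le_natDegree P, ?_⟩
  rw [Polynomial.aeval_eq_sum_range, map_sum]
  rw [Finset.sum_eq_single P.natTrailingDegree]
  · rw [map_smul, coeff_aeval_self hx0, smul_eq_mul]
    refine mul_ne_zero ?_ (pow_ne_zero _ hx1)
    exact Polynomial.trailingCoeff_nonzero_iff_nonzero.2 hP
  · intro b _ hb
    rw [map_smul]
    rcases Nat.lt_or_gt_of_ne hb with h | h
    · rw [Polynomial.coeff_eq_zero_of_lt_natTrailingDegree h, zero_smul]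
    · rw [coeff_aeval_lt hx0 b _ h, smul_zero]
  · intro h
    exact absurd (Finset.mem_range.2 (Nat.lt_succ_of_le
      (Polynomial.natTrailingDegree_le_natDegree P))) h

theorem d_pow (d : Dv K⟦X⟧) (x : K⟦X⟧) (n : ℕ) : d (x ^ n) = (n : K⟦X⟧) * x ^ (n - 1) * d x := by
  rcases n with _ | n
  · simp [d.map_one]
  · rw [d.map_pow]
    simp

theorem d_aeval (d : Dv K⟦X⟧) (hC : ∀ a : K, d (algebraMap K K⟦X⟧ a) = 0) (x : K⟦X⟧)
    (E0 : Polynomial K) (hE : d x = Polynomial.aeval x E0) (P : Polynomial K) :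
    d (Polynomial.aeval x P) = Polynomial.aeval x (Polynomial.derivative P * E0) := by
  induction P using Polynomial.induction_on' with
  | add p q hp hq =>
    rw [map_add, d.map_add, hp, hq, Polynomial.derivative_add, add_mul, map_add]
  | monomial n a =>
    rw [Polynomial.aeval_monomial, d.map_mul, hC, zero_mul, zero_add, d_pow,
      Polynomial.derivative_monomial, map_mul, Polynomial.aeval_monomial, ← hE, map_mul]
    rw [map_natCast]
    ring

/-- Shidlovsky's lemma with `ev = aeval x`. -/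
theorem shid_aeval [CharZero K] {r : ℕ} (d : Dv K⟦X⟧)
    (hd : ∀ (s : ℕ) (f : K⟦X⟧), (∀ l < s, coeff l f = 0) →
      (∀ l < s, coeff l (d f) = 0) ∧ coeff s (d f) = s * coeff s f)
    (hC : ∀ a : K, d (algebraMap K K⟦X⟧ a) = 0) (x : K⟦X⟧) (hx0 : coeff 0 x = 0)
    (hx1 : coeff 1 x ≠ 0) (E0 : Polynomial K) (hE : d x = Polynomial.aeval x E0)
    (y : Fin r → K⟦X⟧) (B : Fin r → Fin r → Polynomial K)
    (hy : ∀ i, d (y i) = ∑ j, Polynomial.aeval x (B i j) * y j) :
    ∃ C0 : ℕ, ∀ (n : ℕ) (p : Fin r → Polynomial K), (∀ i, (p i).natDegree ≤ n) →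
      ∑ i, Polynomial.aeval x (p i) * y i ≠ 0 →
      ∃ l ≤ r * n + C0, coeff l (∑ i, Polynomial.aeval x (p i) * y i) ≠ 0 := by
  refine shidlovsky d hd (Polynomial.aeval x).toRingHom E0.natDegree ?_
    (fun P hP => ord_aeval hx0 hx1 P hP) y B hy
  intro P
  refine ⟨Polynomial.derivative P * E0, ?_, (d_aeval d hC x E0 hE P).symm⟩
  refine Polynomial.natDegree_mul_le.trans (Nat.add_le_add_right ?_ _)
  exact (Polynomial.natDegree_derivative_le P).trans (Nat.sub_le _ _)

/-- a derivation `w * q d/dq` with `w(0) = 1` has the right order behaviour -/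
theorem hd_of {K : Type*} [Field K] (w f : K⟦X⟧) (hw : coeff 0 w = 1) (s : ℕ)
    (hf : ∀ l < s, coeff l f = 0) :
    (∀ l < s, coeff l (w * Dq K f) = 0) ∧ coeff s (w * Dq K f) = s * coeff s f := by
  have h1 : ∀ l < s, coeff l (Dq K f) = 0 := fun l hl => by
    rw [Pool.Agent.H85.OT.coeff_Dq, hf l hl, mul_zero]
  constructor
  · intro l hl
    rw [coeff_mul]
    refine Finset.sum_eq_zero fun z hz => ?_
    have h2 : z.1 + z.2 = l := Finset.HasAntidiagonal.mem_antidiagonal.1 hz
    rw [h1 z.2 (by omega), mul_zero]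
  · rw [coeff_mul, Finset.sum_eq_single (0, s)]
    · rw [hw, one_mul, Pool.Agent.H85.OT.coeff_Dq]
    · rintro ⟨a, b⟩ hz hne
      have h2 : a + b = s := Finset.HasAntidiagonal.mem_antidiagonal.1 hz
      have h3 : b < s := by
        rcases Nat.eq_zero_or_pos a with h | h
        · subst h
          exact absurd (by rw [← h2, zero_add]) hne
        · omega
      simp only
      rw [h1 b h3, mul_zero]
    · intro h
      exact absurd (Finset.HasAntidiagonal.mem_antidiagonal.2 (zero_add s)) h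

end Aeval

end Pool.Agent.H49.OP
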